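import Pool.Agent.H39.RT.Def2
import Pool.Agent.H43.WR.Def

/-!
# [H39 KN Def] THEOREM C (MP_e49dc9_ag): definitions of the final statement

* `KZero X`: the canonical class is numerically trivial.
* `NumT X`: numerically trivial divisors are torsion (over an algebraically closed field: the irregularity is zero).
* `ExcF ν T l p`: the exception in THEOREM R*.
-/

set_option autoImplicit false

namespace Pool.Agent.H39.KN

open Pool.Agent.H54.RV Pool.Agent.H83.TU Pool.Agent.H20.TD Pool.Agent.H20.TP Pool.Agent.H39.TZ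

variable {k K : Type} [Field k] [Field K] [Algebra k K]

/-- the canonical class is numerically trivial: there is a `J` (the quotient of `da ∧ db ∧ dc` by a rational `3`-form) with a numerically trivial divisor -/
def KZero (X : Mod k K) : Prop := ∃ (J : K → K → K → K) (κ : Cart X), Pool.Agent.H43.WR.Jac X J κ ∧ NumZ κ

variable {X : Mod k K}

/-- some positive multiple is principal -/
def TorC (D : Cart X) : Prop := ∃ (n : ℕ) (σ : K), 0 < n ∧ σ ≠ 0 ∧ ∀ x, Un (X.O x) (σ * (D ^ n).eq x)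

/-- numerically trivial divisors are torsion -/
def NumT (X : Mod k K) : Prop := ∀ D : Cart X, NumZ D → TorC D

/-- `p = q + s G` with `s > 0`, `q`, `G` nef and not zero, `G` integral, `q . q = 0`, `G . G = 0`, `l q ≤ 0` -/
def ExcF {r : ℕ} (ν : Cart X →* Multiplicative (Fin r → ℤ)) (T : (Fin r → ℝ) → (Fin r → ℝ) → (Fin r → ℝ) → ℝ)
    (l : (Fin r → ℝ) → ℝ) (p : Fin r → ℝ) : Prop :=
  ∃ (s : ℝ) (q : Fin r → ℝ) (G : Cart X), 0 < s ∧ q ∈ closure (AmpR ν) ∧ q ≠ 0 ∧ cR ν G ∈ closure (AmpR ν) ∧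
    cR ν G ≠ 0 ∧ p = q + s • cR ν G ∧ T q q = 0 ∧ T (cR ν G) (cR ν G) = 0 ∧ l q ≤ 0

/-- the multiples of the nef divisors `P` with `P . P . P = 0`, `P . P ≠ 0` have at least `c n ^ 2` sections, `c > 0` -/
def GroF {r : ℕ} (ν : Cart X →* Multiplicative (Fin r → ℤ)) (T : (Fin r → ℝ) → (Fin r → ℝ) → (Fin r → ℝ) → ℝ) : Prop :=
  ∀ P : Cart X, cR ν P ∈ closure (AmpR ν) → T (cR ν P) (cR ν P) (cR ν P) = 0 → T (cR ν P) (cR ν P) ≠ 0 →
    ∃ c₀ : ℝ, 0 < c₀ ∧ ∃ n₀ : ℕ, ∀ n : ℕ, n₀ ≤ n → c₀ * (n : ℝ) ^ 2 ≤ h0 (P ^ n) 1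

end Pool.Agent.H39.KN
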