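import Pool.Agent.H39.RT.Fin2
import Pool.Agent.H39.KN.Def
import Pool.Agent.H89.RS.Thm

/-!
# [H39 KN KFin] THEOREM C (MP_e49dc9_ag): the cone conjecture, from the local structure at the integral classes
-/

set_option autoImplicit false

namespace Pool.Agent.H39.KN

open AlgebraicGeometry Pool.Agent.H54.RV Pool.Agent.H83.TU Pool.Agent.H83.TK Pool.Agent.H20.TD Pool.Agent.H20.TP
  Pool.Agent.H39.TZ Pool.Agent.H39.TQ Pool.Agent.H20.RT Pool.Agent.H32.TN Pool.Agent.H57.KM Pool.Agent.H39.RT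
open Pool.Agent.H24.VP (RR chS)

section gen

variable {k K : Type} [Field k] [Field K] [Algebra k K] {X : Mod k K} {r : ℕ}
  {ν : Cart X →* Multiplicative (Fin r → ℤ)} {TR : Tri3 r} {l : (Fin r → ℝ) →ₗ[ℝ] ℝ} {p : Fin r → ℝ}

theorem of_exc (h : Pool.Agent.H89.RS.Exc ν TR l p) : ExcF ν (pl TR) l p := by
  obtain ⟨s, q, G, h1, h2, h3, h4, h5, h6, h7, h8, h9⟩ := h
  exact ⟨s, q, G, h1, h2, h3, h4, h5, h6, pl_zero.2 h7, pl_zero.2 h8, h9⟩

end gen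

variable {Y : Scheme.{0}} [IsIntegral Y] (f : Y ⟶ Spec (.of ℂ)) [IsProper f]

/-- **THEOREM C** -/
theorem k_fin [T0Space (mdl f).P] (hSm : Pool.Agent.H20.TU.SmP (mdl f)) (h : Hyp (mdl f)) {r : ℕ}
    {ν : Cart (mdl f) →* Multiplicative (Fin r → ℤ)} (hν : NumR ν) (hH : HypH (mdl f))
    {Q : ((Fin r → ℝ) → (Fin r → ℝ) → (Fin r → ℝ) → ℝ) → Prop}
    (hR : ∀ (T : Cart (mdl f) → Cart (mdl f) → Cart (mdl f) → ℝ) (l₀ : Cart (mdl f) → ℝ) (c : ℝ) (TR : Tri3 r)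
      (l : (Fin r → ℝ) →ₗ[ℝ] ℝ), RR T l₀ c →
      (∀ U V W, TR (Pool.Agent.H20.TP.cR ν U) (Pool.Agent.H20.TP.cR ν V) (Pool.Agent.H20.TP.cR ν W) = T U V W) →
        (∀ D, l (Pool.Agent.H20.TP.cR ν D) = l₀ D) → (∀ q ∈ closure (AmpR ν), q ≠ 0 → 0 < l q) → Q (pl TR) →
          ∀ D : Cart (mdl f), Pool.Agent.H20.TP.cR ν D ∈ closure (AmpR ν) → Pool.Agent.H20.TP.cR ν D ≠ 0 →
            RatAt ν (Pool.Agent.H20.TP.cR ν D) ∧
              (TR (Pool.Agent.H20.TP.cR ν D) (Pool.Agent.H20.TP.cR ν D) = 0 →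
                Pool.Agent.H39.TZ.EffR ν (Pool.Agent.H20.TP.cR ν D))) :
    ∃ (T : (Fin r → ℝ) → (Fin r → ℝ) → (Fin r → ℝ) → ℝ) (l : (Fin r → ℝ) → ℝ) (c : ℝ), HilbF ν T l c ∧
      (∀ p ∈ closure (AmpR ν), 0 < l p → RatIn ν p ∨ ExcF ν T l p) ∧
      ((∀ p ∈ closure (AmpR ν), p ≠ 0 → 0 < l p) → NefC (mdl f) ⊆ NefP (mdl f) ∧
        (Q T → NefC (mdl f) ⊆ EffC (mdl f) ∧ RatPolyC (NefC (mdl f)) ∧ Q1Y f)) ∧
      ThrR ν T := by
  obtain ⟨T₀, l₀, c, T, l, hT₀, hT, hl, hHR⟩ := exists_hilbR h hν hH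
  have hr := hT₀.rr
  obtain ⟨b, hb'⟩ := exists_b h.var h.amp hν (nt_of h hr hν hT (nak_r h hr hν hT))
  have hM : ∀ p ∈ closure (AmpR ν), 0 < l p → RatIn ν p ∨ ExcF ν (pl T) l p := fun p hp hlp => by
    rcases Pool.Agent.H89.RS.thmRS hSm h hr hν hT hl hp hlp with ⟨e, he, h1⟩ | h1
    · exact Or.inl ⟨e, he, fun y hy hn => h1 y hy hn⟩
    · exact Or.inr (of_exc h1)
  have hM' : (∀ p ∈ closure (AmpR ν), p ≠ 0 → 0 < l p) → ∀ p ∈ closure (AmpR ν), p ≠ 0 → RatIn ν p := by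
    intro hpos p hp hp0
    rcases hM p hp (hpos p hp hp0) with h1 | ⟨s, q, G, -, hq, hq0, -, -, -, -, -, hlq⟩
    · exact h1
    · exact absurd (hpos q hq hq0) (not_lt.2 hlq)
  refine ⟨pl T, l, c, hilbF_of hHR, hM, fun hpos => ⟨?_, fun hQ => ?_⟩, T₀, hT, fun A D hA => ?_⟩
  · have := fd_of_basis h.var b
    intro x hx
    obtain ⟨v, rfl⟩ := (pt_bij h.var b).2 x
    rw [← pt_nef h.var hb'] at hx
    by_cases h0 : v = 0
    · rw [h0, Pool.Agent.H83.DC.pt_zero]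
      exact np_zero h.var h.amp
    · exact ratin_np h.var h.amp hν hb' (hM' hpos v hx h0)
  · have hin := hM' hpos
    have hF : FibP ν (pl T) := fun D hD hD0 _ => by
      obtain ⟨h1, h2⟩ := hR _ _ _ _ _ hr hT hl hpos hQ D hD hD0
      exact ⟨h1, fun h3 => h2 (pl_zero.1 h3)⟩
    have hint := fib_int h hr hν hT hHR.int hl hpos hF
    have hN := cco_nef h.var hν
    have hNE : NefC (mdl f) ⊆ EffC (mdl f) := nefc_effc h.var hb' fun p hp => by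
      by_cases h0 : p = 0
      · rw [h0]
        exact effr_zero
      · exact ratin_cone h.var hν (C := {v | Pool.Agent.H39.TZ.EffR ν v}) effr_zero (fun u hu v hv => effr_add hu hv)
          (fun c hc u hu => effr_smul hc hu) (fun d hd => (hint d hd).1) (hin p hp h0)
    obtain ⟨F, hF'⟩ := poly_loc h hr hν fun p hp h0 =>
      rat_of_in hN (hin p hp h0) h0 fun d hd hd0 => (hint d hd).2 hd0
    obtain ⟨h1, -, h2⟩ := Pool.Agent.H39.TP.q1_poly f h.amp b F (by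
      rw [pt_amp h.var hb']
      exact hF') fun D hD => hNE hD
    exact ⟨hNE, h1, h2⟩
  · exact thr_all h hT₀ ν (fun D hD => (hν.ker D).1 hD) A D hA

end Pool.Agent.H39.KN
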