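import Pool.Agent.H39.KN.NsA
import Pool.Agent.H39.KN.KFin
import Pool.Agent.H20.TU.SMB
import Pool.Agent.H83.TU.SE
import Pool.Agent.H32.TK.T0

/-!
# [H39 KN Fin3] THEOREM C (MP_e49dc9_ag): the final statement, with the growth hypothesis
-/

set_option autoImplicit false

namespace Pool.Agent.H39.KN

open AlgebraicGeometry Pool.Agent.H57.KM Pool.Agent.H54.RV Pool.Agent.H83.TU Pool.Agent.H39.TZ Pool.Agent.H20.TD
  Pool.Agent.H39.RT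

theorem c_fin {Y : Scheme.{0}} [IsIntegral Y] (f : Y ⟶ Spec (.of ℂ)) [IsProper f] [Smooth f]
    (hd : Algebra.trdeg ℂ (FF f) = 3) (hA : ∃ D : Cart (mdl f), Ample D) {r : ℕ}
    (ν : Cart (mdl f) →* Multiplicative (Fin r → ℤ)) (hs : Function.Surjective ν) (hν : ∀ D, ν D = 1 ↔ NumZ D)
    (hH : ∀ A : Cart (mdl f), Ample A → ∃ a b c : ℝ, 0 < b ∧
      ∃ n₀ : ℕ, ∀ n : ℕ, n₀ ≤ n → (h0 A n : ℝ) = a * (n : ℝ) ^ 3 + b * n + c) :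
    ∃ (T : (Fin r → ℝ) → (Fin r → ℝ) → (Fin r → ℝ) → ℝ) (l : (Fin r → ℝ) → ℝ) (c : ℝ), HilbF ν T l c ∧
      (∀ p ∈ closure (AmpR ν), 0 < l p → RatIn ν p ∨ ExcF ν T l p) ∧
      ((∀ p ∈ closure (AmpR ν), p ≠ 0 → 0 < l p) → NefC (mdl f) ⊆ NefP (mdl f) ∧
        (KZero (mdl f) ∧ NumT (mdl f) ∧ GroF ν T →
          NefC (mdl f) ⊆ EffC (mdl f) ∧ RatPolyC (NefC (mdl f)) ∧ Q1Y f)) ∧
      ThrR ν T := by
  have h := Pool.Agent.H20.TU.hyp_smooth f hd hA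
  have hSm := Pool.Agent.H20.TU.smP_mdl f hd
  have := Pool.Agent.H32.TK.t0_mdl f
  have hN : Pool.Agent.H20.TD.NumR ν := ⟨hs, hν⟩
  refine k_fin f hSm h hN hH (Q := fun T => KZero (mdl f) ∧ NumT (mdl f) ∧ GroF ν T)
    fun T l₀ c TR l hr hT hl hpos hQ D hD hD0 => ?_
  obtain ⟨⟨J, κ, hJ, hκ⟩, hnt, hgro⟩ := hQ
  refine (rat_all hSm h hr hN hT hl hJ hκ hnt (ns_all hSm h hr hN hT hl hJ hκ) (fun P hP h3 hPP => ?_) hpos).2 D hD hD0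
  exact hgro P (by rwa [Pool.Agent.H20.TD.cl_eq h.var hN]) h3 fun h1 => hPP (Pool.Agent.H39.TZ.pl_zero.1 h1)

end Pool.Agent.H39.KN
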