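import Pool.Agent.H20.AB.Wf

/-!
# [H39 KN StrB] MP_e49dc9_ag: nef classes `p` with `l p > 0` are effective

`ratin_cone_loc`: a local form of `ratin_cone`.  `eff_int`: integral nef classes `D` with `l D > 0` are effective.
`str_b`: every nef `p` with `l p > 0` is (I) an interior point of the nef cone of its rational hull, and effective, or (II)
`ExcF`.  `c_w2`: THEOREM C.
-/

set_option autoImplicit false

namespace Pool.Agent.H39.KN

open AlgebraicGeometry Pool.Agent.H54.RV Pool.Agent.H83.TU Pool.Agent.H83.TK Pool.Agent.H20.TD Pool.Agent.H20.TP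
  Pool.Agent.H39.TZ Pool.Agent.H39.TQ Pool.Agent.H20.RT Pool.Agent.H32.TN Pool.Agent.H57.KM Pool.Agent.H39.RT
open Pool.Agent.H24.VP (RR chS)

section gen

variable {k K : Type} [Field k] [Field K] [Algebra k K] {X : Mod k K} {r : ℕ}
  {ν : Cart X →* Multiplicative (Fin r → ℤ)} {T : Cart X → Cart X → Cart X → ℝ} {l₀ : Cart X → ℝ} {c : ℝ}
  {TR : Tri3 r} {l : (Fin r → ℝ) →ₗ[ℝ] ℝ} {p : Fin r → ℝ}

/-- a point in the interior of its rational span is in every convex cone which contains the integral nef classes near its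
ray -/
theorem ratin_cone_loc (hX : IsVar X) (hν : NumR ν) {C : Set (Fin r → ℝ)} (h0 : (0 : Fin r → ℝ) ∈ C)
    (hadd : ∀ u ∈ C, ∀ v ∈ C, u + v ∈ C) (hsmul : ∀ c : ℝ, 0 ≤ c → ∀ u ∈ C, c • u ∈ C) {e' : ℝ} (he' : 0 < e')
    (hC : ∀ (d : Fin r → ℤ) (x : ℝ), 0 < x → rv d ∈ closure (AmpR ν) → ‖x⁻¹ • rv d - p‖ < e' → rv d ∈ C)
    (hp : RatIn ν p) : p ∈ C := by
  classical
  obtain ⟨e₀, he₀, hb₀⟩ := hp
  obtain ⟨e, hee⟩ : ∃ e : ℝ, e = min e₀ e' := ⟨_, rfl⟩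
  have he : 0 < e := by rw [hee]; exact lt_min he₀ he'
  have hle₀ : e ≤ e₀ := by rw [hee]; exact min_le_left _ _
  have hle' : e ≤ e' := by rw [hee]; exact min_le_right _ _
  obtain ⟨m, q, c, hlin, hy⟩ := Pool.Agent.H89.ZN.red_lin p
  obtain ⟨g, hg⟩ : ∃ g : Fin m → Fin r → ℤ, g = fun i j => c j i := ⟨_, rfl⟩
  have hpg : p = ∑ i, q i • rv (g i) := by
    funext j
    rw [Finset.sum_apply, hy j]
    refine Finset.sum_congr rfl fun i _ => ?_
    rw [Pi.smul_apply, smul_eq_mul, hg]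
    show (c j i : ℝ) * q i = q i * ((c j i : ℤ) : ℝ)
    ring
  have hφ : ∀ φ : Fin r → ℤ, rv φ ⬝ᵥ p = 0 → ∀ i, (∑ j, φ j * g i j : ℤ) = 0 := by
    intro φ h1
    rw [hpg, dot_sum] at h1
    have h2 := hlin (fun i => ∑ j, φ j * g i j) (by
      rw [← h1]
      exact Finset.sum_congr rfl fun i _ => mul_comm _ _)
    exact fun i => congrFun h2 i
  obtain ⟨S, hS⟩ : ∃ S : ℝ, S = ∑ i, ‖rv (g i)‖ := ⟨_, rfl⟩
  have hS0 : 0 ≤ S := by rw [hS]; positivity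
  rw [hpg]
  refine Pool.Agent.H32.TN.cone_dio (p := q) (C := {v : Fin m → ℝ | ∑ i, v i • rv (g i) ∈ C}) hlin one_pos
    ((S + 1) / e) ?_ ?_ ?_ ?_
  · show ∑ i, (0 : Fin m → ℝ) i • rv (g i) ∈ C
    simp only [Pi.zero_apply, zero_smul, Finset.sum_const_zero]
    exact h0
  · intro u hu v hv
    show ∑ i, (u + v) i • rv (g i) ∈ C
    simp only [Pi.add_apply, add_smul, Finset.sum_add_distrib]
    exact hadd _ hu _ hv
  · intro a ha u hu
    show ∑ i, (a • u) i • rv (g i) ∈ C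
    simp only [Pi.smul_apply, smul_eq_mul, mul_smul]
    rw [← Finset.smul_sum]
    exact hsmul a ha _ hu
  · intro n x hx hn
    show ∑ i, (n i : ℝ) • rv (g i) ∈ C
    have hxp : 0 < x := lt_of_lt_of_le (by positivity) hx
    obtain ⟨d, hd⟩ : ∃ d : Fin r → ℤ, d = ∑ i, n i • g i := ⟨_, rfl⟩
    have hrd : rv d = ∑ i, (n i : ℝ) • rv (g i) := by
      funext j
      rw [hd]
      simp [rv, Finset.sum_apply]
    rw [← hrd]
    have h2 : ‖x⁻¹ • rv d - p‖ < e := by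
      have h2 : x⁻¹ • rv d - p = ∑ i, (x⁻¹ * (n i - x * q i)) • rv (g i) := by
        rw [hrd, hpg, Finset.smul_sum, ← Finset.sum_sub_distrib]
        refine Finset.sum_congr rfl fun i _ => ?_
        rw [smul_smul, ← sub_smul]
        congr 1
        field_simp
      rw [h2]
      calc ‖∑ i, (x⁻¹ * (n i - x * q i)) • rv (g i)‖ ≤ ∑ i, ‖(x⁻¹ * (n i - x * q i)) • rv (g i)‖ := norm_sum_le _ _
        _ ≤ ∑ i, x⁻¹ * ‖rv (g i)‖ := Finset.sum_le_sum fun i _ => by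
            rw [norm_smul, norm_mul, Real.norm_eq_abs, Real.norm_eq_abs, abs_of_pos (inv_pos.2 hxp)]
            refine mul_le_mul_of_nonneg_right ?_ (norm_nonneg _)
            exact mul_le_of_le_one_right (inv_pos.2 hxp).le (hn i)
        _ = x⁻¹ * S := by rw [← Finset.mul_sum, hS]
        _ < e := by
            rw [inv_mul_lt_iff₀ hxp]
            have h3 : S + 1 ≤ x * e := by rwa [div_le_iff₀ he] at hx
            linarith
    have h1 : x⁻¹ • rv d ∈ closure (AmpR ν) := by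
      refine hb₀ _ (fun φ h1 => ?_) (h2.trans_le hle₀)
      rw [dotProduct_smul, hrd, dot_sum, Finset.sum_eq_zero, smul_zero]
      intro i _
      rw [hφ φ h1 i, Int.cast_zero, mul_zero]
    have h3 : x • (x⁻¹ • rv d) ∈ closure (AmpR ν) := by
      rw [cl_eq hX hν] at h1 ⊢
      exact cl_smul hxp.le h1
    rw [smul_smul, mul_inv_cancel₀ hxp.ne', one_smul] at h3
    exact hC d x hxp h3 (h2.trans_le hle')

/-- integral nef classes with `l > 0` are effective -/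
theorem eff_int [CharZero k] [IsAlgClosed k] [T0Space X.P] (h : Hyp X) (hr : RR T l₀ c) (hν : NumR ν)
    (hT : ∀ U V W, TR (Pool.Agent.H20.TP.cR ν U) (Pool.Agent.H20.TP.cR ν V) (Pool.Agent.H20.TP.cR ν W) = T U V W)
    (hint : ∀ U V W, ∃ z : ℤ,
      TR (Pool.Agent.H20.TP.cR ν U) (Pool.Agent.H20.TP.cR ν V) (Pool.Agent.H20.TP.cR ν W) = z)
    (hl : ∀ D, l (Pool.Agent.H20.TP.cR ν D) = l₀ D) {D : Cart X}
    (hD : Pool.Agent.H20.TP.cR ν D ∈ closure (AmpR ν)) (hpos : 0 < l (Pool.Agent.H20.TP.cR ν D)) :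
    Pool.Agent.H39.TZ.EffR ν (Pool.Agent.H20.TP.cR ν D) := by
  rcases (cube_nn h hr hT hD).lt_or_eq with h3 | h3
  · exact effr_of_big h hr hν hT hD h3
  by_cases hpp : TR (Pool.Agent.H20.TP.cR ν D) (Pool.Agent.H20.TP.cR ν D) = 0
  · obtain ⟨E, ⟨P, -, hS⟩, -, s, hs, hNs'⟩ := Pool.Agent.H20.ZO.z0 h hr hν hT hl hD
      (fun U => by rw [← hT, hpp, LinearMap.zero_apply]) (by rw [← hl]; exact hpos)
    rw [hNs']
    exact ⟨1, fun _ => s, fun _ => E 0, fun _ => ⟨hs.le, (hS 0).eff⟩, by simp⟩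
  · rcases z_irr h hν hr hT hl hD hpos hpp with h6 | ⟨-, -, h6⟩
    · exact h6
    · exact absurd ⟨TR (Pool.Agent.H20.TP.cR ν D) (Pool.Agent.H20.TP.cR ν D), 1, fun E => hint D D E,
        fun v => (one_mul _).symm⟩ h6

/-- classes of type (I) with `l > 0` are effective -/
theorem eff_in [CharZero k] [IsAlgClosed k] [T0Space X.P] (h : Hyp X) (hr : RR T l₀ c) (hν : NumR ν)
    (hT : ∀ U V W, TR (Pool.Agent.H20.TP.cR ν U) (Pool.Agent.H20.TP.cR ν V) (Pool.Agent.H20.TP.cR ν W) = T U V W)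
    (hint : ∀ U V W, ∃ z : ℤ,
      TR (Pool.Agent.H20.TP.cR ν U) (Pool.Agent.H20.TP.cR ν V) (Pool.Agent.H20.TP.cR ν W) = z)
    (hl : ∀ D, l (Pool.Agent.H20.TP.cR ν D) = l₀ D) (hpos : 0 < l p) (hp : RatIn ν p) :
    Pool.Agent.H39.TZ.EffR ν p := by
  have hc : Continuous l := LinearMap.continuous_of_finiteDimensional l
  obtain ⟨e', he', hb⟩ := Metric.eventually_nhds_iff.1 (hc.continuousAt.eventually (lt_mem_nhds hpos))
  refine ratin_cone_loc h.var hν (C := {v | Pool.Agent.H39.TZ.EffR ν v}) effr_zero (fun u hu v hv => effr_add hu hv)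
    (fun c hc u hu => effr_smul hc hu) he' (fun d x hx hd hn => ?_) hp
  obtain ⟨D, hD⟩ := ci_surj hν d
  have hD' : rv d = Pool.Agent.H20.TP.cR ν D := by
    rw [← hD]
  have h1 : 0 < l (x⁻¹ • rv d) := hb (by rwa [dist_eq_norm])
  rw [map_smul, smul_eq_mul] at h1
  have h2 : 0 < l (rv d) := (mul_pos_iff_of_pos_left (inv_pos.2 hx)).1 h1
  show Pool.Agent.H39.TZ.EffR ν (rv d)
  rw [hD'] at hd h2 ⊢
  exact eff_int h hr hν hT hint hl hd h2

end gen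

/-- nef classes `p` with `l p > 0` -/
theorem str_b {Y : Scheme.{0}} [IsIntegral Y] (f : Y ⟶ Spec (.of ℂ)) [IsProper f] [Smooth f]
    (hd : Algebra.trdeg ℂ (FF f) = 3) (hA : ∃ D : Cart (mdl f), Ample D) {r : ℕ}
    (ν : Cart (mdl f) →* Multiplicative (Fin r → ℤ)) (hs : Function.Surjective ν) (hνk : ∀ D, ν D = 1 ↔ NumZ D)
    (hH : ∀ A : Cart (mdl f), Ample A → ∃ a b c : ℝ, 0 < b ∧
      ∃ n₀ : ℕ, ∀ n : ℕ, n₀ ≤ n → (h0 A n : ℝ) = a * (n : ℝ) ^ 3 + b * n + c) :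
    ∃ (T : (Fin r → ℝ) → (Fin r → ℝ) → (Fin r → ℝ) → ℝ) (l : (Fin r → ℝ) → ℝ) (c : ℝ), HilbF ν T l c ∧
      (∀ D : Cart (mdl f), Pool.Agent.H20.TP.cR ν D ∈ closure (AmpR ν) → 0 < l (Pool.Agent.H20.TP.cR ν D) →
        Pool.Agent.H39.TZ.EffR ν (Pool.Agent.H20.TP.cR ν D)) ∧
      ∀ p ∈ closure (AmpR ν), 0 < l p → (RatIn ν p ∧ Pool.Agent.H39.TZ.EffR ν p) ∨ ExcF ν T l p := by
  have h := Pool.Agent.H20.TU.hyp_smooth f hd hA
  have hSm := Pool.Agent.H20.TU.smP_mdl f hd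
  have := Pool.Agent.H32.TK.t0_mdl f
  have hν : NumR ν := ⟨hs, hνk⟩
  obtain ⟨b₀, l₀, c, T, l, hT₀, hT, hl, hHR⟩ := exists_hilbR h hν hH
  have hr := hT₀.rr
  refine ⟨pl T, l, c, hilbF_of hHR, fun D hD hp => eff_int h hr hν hT hHR.int hl hD hp, fun p hp hlp => ?_⟩
  rcases Pool.Agent.H89.RS.thmRS hSm h hr hν hT hl hp hlp with ⟨e, he, h1⟩ | h1
  · have h2 : RatIn ν p := ⟨e, he, fun y hy hn => h1 y hy hn⟩
    exact Or.inl ⟨h2, eff_in h hr hν hT hHR.int hl hlp h2⟩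
  · exact Or.inr (of_exc h1)

/-- **THEOREM C**: the cone conjecture if `l > 0` on the nef `p ≠ 0` with `p ^ 3 = 0` -/
theorem c_w2 {Y : Scheme.{0}} [IsIntegral Y] (f : Y ⟶ Spec (.of ℂ)) [IsProper f] [Smooth f]
    (hd : Algebra.trdeg ℂ (FF f) = 3) (hA : ∃ D : Cart (mdl f), Ample D) {r : ℕ}
    (ν : Cart (mdl f) →* Multiplicative (Fin r → ℤ)) (hs : Function.Surjective ν) (hνk : ∀ D, ν D = 1 ↔ NumZ D)
    (hH : ∀ A : Cart (mdl f), Ample A → ∃ a b c : ℝ, 0 < b ∧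
      ∃ n₀ : ℕ, ∀ n : ℕ, n₀ ≤ n → (h0 A n : ℝ) = a * (n : ℝ) ^ 3 + b * n + c) :
    ∃ (T : (Fin r → ℝ) → (Fin r → ℝ) → (Fin r → ℝ) → ℝ) (l : (Fin r → ℝ) → ℝ) (c : ℝ), HilbF ν T l c ∧
      ((∀ p ∈ closure (AmpR ν), p ≠ 0 → T p p p = 0 → 0 < l p) → NefC (mdl f) ⊆ NefP (mdl f) ∧
        NefC (mdl f) ⊆ EffC (mdl f) ∧ (KZero (mdl f) ∧ NumT (mdl f) → RatPolyC (NefC (mdl f)) ∧ Q1Y f)) := by
  have h := Pool.Agent.H20.TU.hyp_smooth f hd hA
  have hSm := Pool.Agent.H20.TU.smP_mdl f hd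
  have := Pool.Agent.H32.TK.t0_mdl f
  have hν : NumR ν := ⟨hs, hνk⟩
  obtain ⟨b₀, l₀, c, T, l, hT₀, hT, hl, hHR⟩ := exists_hilbR h hν hH
  have hr := hT₀.rr
  obtain ⟨b, hb'⟩ := exists_b h.var h.amp hν (nt_of h hr hν hT (nak_r h hr hν hT))
  refine ⟨pl T, l, c, hilbF_of hHR, fun hpos => ?_⟩
  have hin : ∀ p ∈ closure (AmpR ν), p ≠ 0 → RatIn ν p := by
    intro p hp hp0
    obtain ⟨e, he, h1⟩ := Pool.Agent.H20.AB.in_all_w hSm h hr hν hT hl hpos p hp hp0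
    exact ⟨e, he, fun y hy hn => h1 y hy hn⟩
  have hNE : NefC (mdl f) ⊆ EffC (mdl f) := nefc_effc h.var hb' fun p hp => by
    by_cases h0 : p = 0
    · rw [h0]
      exact effr_zero
    rcases (cube_nn h hr hT hp).lt_or_eq with h3 | h3
    · exact effr_of_big h hr hν hT hp h3
    · exact eff_in h hr hν hT hHR.int hl (hpos p hp h0 h3.symm) (hin p hp h0)
  refine ⟨?_, hNE, fun hQ => ?_⟩
  · have := fd_of_basis h.var b
    intro x hx
    obtain ⟨v, rfl⟩ := (pt_bij h.var b).2 x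
    rw [← pt_nef h.var hb'] at hx
    by_cases h0 : v = 0
    · rw [h0, Pool.Agent.H83.DC.pt_zero]
      exact np_zero h.var h.amp
    · exact ratin_np h.var h.amp hν hb' (hin v hx h0)
  · obtain ⟨⟨J, κ, hJ, hκ⟩, hnt⟩ := hQ
    have hF : FibP ν (pl T) := fun D hD hD0 _ => by
      obtain ⟨h1, h2⟩ := Pool.Agent.H20.AB.rat_all_w hSm h hr hν hT hl hJ hκ hnt hpos D hD hD0
      exact ⟨h1, fun h3 => h2 (pl_zero.1 h3)⟩
    have hint := Pool.Agent.H20.AB.fib_int_w h hr hν hT hHR.int hl hpos hF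
    have hN := cco_nef h.var hν
    obtain ⟨F, hF'⟩ := poly_loc h hr hν fun p hp h0 =>
      rat_of_in hN (hin p hp h0) h0 fun d hd hd0 => (hint d hd).2 hd0
    obtain ⟨h1, -, h2⟩ := Pool.Agent.H39.TP.q1_poly f h.amp b F (by
      rw [pt_amp h.var hb']
      exact hF') fun D hD => hNE hD
    exact ⟨h1, h2⟩

end Pool.Agent.H39.KN
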