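import Pool.Agent.H20.AB.Np
import Pool.Agent.H39.KN.StrB

/-!
# [H39 KN StrD] MP_e49dc9_ag: `Nef^+` and effective classes on threefolds with trivial canonical class

`b_end`: nef classes with `l > 0`, and the reduction of `Nef^+ = Nef^e` to the classes with `p ^ 3 = 0`, `l p = 0`.
-/

set_option autoImplicit false

namespace Pool.Agent.H39.KN

open AlgebraicGeometry Pool.Agent.H54.RV Pool.Agent.H83.TU Pool.Agent.H83.TK Pool.Agent.H20.TD
  Pool.Agent.H39.TZ Pool.Agent.H39.TQ Pool.Agent.H20.RT Pool.Agent.H32.TN Pool.Agent.H57.KM Pool.Agent.H39.RT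
open Pool.Agent.H20.AB (HulR hul_all)

/-- nef classes and effective classes -/
theorem b_end {Y : Scheme.{0}} [IsIntegral Y] (f : Y ⟶ Spec (.of ℂ)) [IsProper f] [Smooth f]
    (hd : Algebra.trdeg ℂ (FF f) = 3) (hA : ∃ D : Cart (mdl f), Ample D) {r : ℕ}
    (ν : Cart (mdl f) →* Multiplicative (Fin r → ℤ)) (hs : Function.Surjective ν) (hνk : ∀ D, ν D = 1 ↔ NumZ D)
    (hH : ∀ A : Cart (mdl f), Ample A → ∃ a b c : ℝ, 0 < b ∧
      ∃ n₀ : ℕ, ∀ n : ℕ, n₀ ≤ n → (h0 A n : ℝ) = a * (n : ℝ) ^ 3 + b * n + c) :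
    ∃ (T : (Fin r → ℝ) → (Fin r → ℝ) → (Fin r → ℝ) → ℝ) (l : (Fin r → ℝ) → ℝ) (c : ℝ), HilbF ν T l c ∧
      (∀ D : Cart (mdl f), Pool.Agent.H20.TP.cR ν D ∈ closure (AmpR ν) → 0 < l (Pool.Agent.H20.TP.cR ν D) →
        Pool.Agent.H39.TZ.EffR ν (Pool.Agent.H20.TP.cR ν D)) ∧
      (∀ p ∈ closure (AmpR ν), 0 < l p → (RatIn ν p ∧ Pool.Agent.H39.TZ.EffR ν p) ∨ ExcF ν T l p) ∧
      ((∀ p ∈ closure (AmpR ν), T p p p = 0 → l p = 0 → HulR ν p) → NefC (mdl f) ⊆ NefP (mdl f)) ∧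
      ((∀ D : Cart (mdl f), Pool.Agent.H20.TP.cR ν D ∈ closure (AmpR ν) →
          T (Pool.Agent.H20.TP.cR ν D) (Pool.Agent.H20.TP.cR ν D) (Pool.Agent.H20.TP.cR ν D) = 0 →
          l (Pool.Agent.H20.TP.cR ν D) = 0 → Pool.Agent.H39.TZ.EffR ν (Pool.Agent.H20.TP.cR ν D)) →
        NefP (mdl f) ⊆ EffC (mdl f)) := by
  have h := Pool.Agent.H20.TU.hyp_smooth f hd hA
  have hSm := Pool.Agent.H20.TU.smP_mdl f hd
  have := Pool.Agent.H32.TK.t0_mdl f
  have hν : NumR ν := ⟨hs, hνk⟩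
  obtain ⟨b₀, l₀, c, T, l, hT₀, hT, hl, hHR⟩ := exists_hilbR h hν hH
  have hr := hT₀.rr
  obtain ⟨b, hb'⟩ := exists_b h.var h.amp hν (nt_of h hr hν hT (nak_r h hr hν hT))
  have hF := hilbF_of hHR
  have hln : ∀ q ∈ closure (AmpR ν), 0 ≤ l q := by
    refine closure_minimal (t := {q | 0 ≤ l q}) ?_ (isClosed_le continuous_const l.continuous_of_finiteDimensional)
    rintro _ ⟨m, c', D, hc', hD, rfl⟩
    show 0 ≤ l _
    rw [map_sum]
    refine Finset.sum_nonneg fun i _ => ?_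
    rw [map_smul]
    exact mul_nonneg (hc' i).le (hF.pos (D i) (hD i)).le
  have hfd := fd_of_basis h.var b
  refine ⟨pl T, l, c, hF, fun D hD hp => eff_int h hr hν hT hHR.int hl hD hp, fun p hp hlp => ?_, fun hZ => ?_,
    fun hZ => ?_⟩
  · rcases Pool.Agent.H89.RS.thmRS hSm h hr hν hT hl hp hlp with ⟨e, he, h1⟩ | h1
    · have h2 : RatIn ν p := ⟨e, he, fun y hy hn => h1 y hy hn⟩
      exact Or.inl ⟨h2, eff_in h hr hν hT hHR.int hl hlp h2⟩
    · exact Or.inr (of_exc h1)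
  · have hall := hul_all hSm h hr hν hT hl hln hZ
    intro x hx
    obtain ⟨v, rfl⟩ := (pt_bij h.var b).2 x
    rw [← pt_nef h.var hb'] at hx
    obtain ⟨m, a, D, h1, rfl⟩ := hall v hx
    rw [Pool.Agent.H83.DC.pt_sum]
    have h2 : ∑ i, pt b (a i • Pool.Agent.H20.TP.cR ν (D i)) = ∑ i, a i • pt b (Pool.Agent.H20.TP.cR ν (D i)) :=
      Finset.sum_congr rfl fun i _ => Pool.Agent.H54.RV.pt_smul b _ _
    rw [h2]
    refine Pool.Agent.H54.RV.np_sum h.var h.amp _ _ (fun i => (h1 i).1) fun i _ => ?_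
    have h3 := (h1 i).2
    rw [pt_nef h.var hb'] at h3
    refine subset_convexHull ℝ _ ⟨h3, ?_⟩
    have h4 : Pool.Agent.H54.RV.cl (D i) = pt b (Pool.Agent.H20.TP.cR ν (D i)) := hb' (D i)
    rw [← h4]
    exact Pool.Agent.H54.RV.ratC_cl (D i)
  · have hNE : NE (mdl f) := fun D hD => by
      have h4 : Pool.Agent.H54.RV.cl D = pt b (Pool.Agent.H20.TP.cR ν D) := hb' D
      have hD' : Pool.Agent.H20.TP.cR ν D ∈ closure (AmpR ν) := by
        rw [pt_nef h.var hb', ← h4]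
        exact hD
      have hE : Pool.Agent.H39.TZ.EffR ν (Pool.Agent.H20.TP.cR ν D) := by
        rcases (cube_nn h hr hT hD').lt_or_eq with h3 | h3
        · exact effr_of_big h hr hν hT hD' h3
        rcases (hln _ hD').lt_or_eq with h5 | h5
        · exact eff_int h hr hν hT hHR.int hl hD' h5
        · exact hZ D hD' h3.symm h5.symm
      obtain ⟨m, a, E, h1, h2⟩ := hE
      refine ⟨m, a, E, fun i => (h1 i).1, fun i => (h1 i).2, ?_⟩
      rw [h4, h2, Pool.Agent.H83.DC.pt_sum]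
      exact Finset.sum_congr rfl fun i _ => by rw [Pool.Agent.H54.RV.pt_smul, hb']
    exact fun x hx => (ne_incl h.amp hNE hx).2

end Pool.Agent.H39.KN
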