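import Pool.Agent.H20.ZO.Asm
import Pool.Agent.H41.TQ.Dsj
import Pool.Agent.H32.KF.Rk1
import Pool.Agent.H39.KN.Def

/-!
# [H39 KN Pen] K3 fibrations (MP_e49dc9_ag): the pencil

`NumT X`: numerically trivial Cartier divisors are torsion (over an algebraically closed field: the irregularity is zero).
`pen_t`: `N` integral and nef, `N . N = 0`, `l N > 0`: a positive multiple of `N` is numerically equal to `F` with `Pcl F 1 u` (two sections `1`, `u` without common zeros).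
PROOF.  THEOREM Z0 gives prime divisors `D 0`, `D 1` with the same class.  `(D 1) ^ n / (D 0) ^ n` is principal; `F = (D 0) ^ n`.  They are disjoint (`disj`, H41/TQ/Dsj.lean).
-/

set_option autoImplicit false

namespace Pool.Agent.H39.KN

open Pool.Agent.H54.RV Pool.Agent.H83.TU Pool.Agent.H83.TK Pool.Agent.H20.TD Pool.Agent.H20.TP Pool.Agent.H20.RT
open Pool.Agent.H24.VP (RR)
open Pool.Agent.H32.KF (Pcl)

variable {k K : Type} [Field k] [Field K] [Algebra k K] {X : Mod k K} {r : ℕ}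
  {ν : Cart X →* Multiplicative (Fin r → ℤ)} {T : Cart X → Cart X → Cart X → ℝ} {l₀ : Cart X → ℝ} {c : ℝ} {TR : Tri3 r}

private theorem trans_of [IsAlgClosed k] {f : K} (hf : ∀ c : k, f ≠ algebraMap k K c) : Transcendental k f := by
  intro h1
  have h2 : IsIntegral k f := h1.isIntegral
  have h3 := IsAlgClosed.degree_eq_one_of_irreducible k (minpoly.irreducible h2)
  obtain ⟨c, hc⟩ := (minpoly.mem_range_of_degree_eq_one k f h3)
  exact hf c hc.symm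

theorem pen_of [CharZero k] [IsAlgClosed k] [T0Space X.P] (h : Hyp X) (hr : RR T l₀ c) {A : Cart X} (hA : Ample A)
    {D₀ D₁ : Cart X} {P₀ P₁ : PDiv X} (h0 : SPr X P₀.η D₀) (h1 : SPr X P₁.η D₁) (hne : P₀.η ≠ P₁.η)
    (hz : ∀ U, T U D₀ D₁ = 0) (ht : TorC (D₁ * D₀⁻¹)) : ∃ (m : ℕ) (s : K), 0 < m ∧ Pcl (D₀ ^ m) 1 s := by
  obtain ⟨n, σ, hn, hσ, hun⟩ := ht
  have hd : ∀ x, ¬ (P₀.η ⤳ x ∧ P₁.η ⤳ x) := Pool.Agent.H41.TQ.disj h hr hA P₀ P₁ h0 h1 hne hz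
  have e0 : ∀ x, (D₀ ^ n).eq x = D₀.eq x ^ n := fun x => pow_eq D₀ n x
  -- `σ⁻¹ D₀ ^ n` is `D₁ ^ n` times a unit
  have key : ∀ x, ∃ u, Un (X.O x) u ∧ σ⁻¹ * (D₀ ^ n).eq x = u * D₁.eq x ^ n := by
    intro x
    refine ⟨(σ * ((D₁ * D₀⁻¹) ^ n).eq x)⁻¹, un_inv (hun x), ?_⟩
    have e1 : ((D₁ * D₀⁻¹) ^ n).eq x = (D₁.eq x * (D₀.eq x)⁻¹) ^ n := by
      rw [pow_eq, mul_eq]
      rfl
    have h2 := D₁.ne x
    have h3 := D₀.ne x
    rw [e1, e0, mul_pow, inv_pow]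
    field_simp
  refine ⟨n, σ⁻¹, hn, ⟨fun x => ?_, fun x => ?_, fun x => ?_, ?_⟩⟩
  · rw [pow_one, one_mul, e0]
    exact (X.O x).pow_mem (h0.eff x) n
  · rw [pow_one]
    obtain ⟨u, hu, e⟩ := key x
    rw [e]
    exact (X.O x).mul_mem hu.2.1 ((X.O x).pow_mem (h1.eff x) n)
  · by_cases hx : P₀.η ⤳ x
    · right
      obtain ⟨u, hu, e⟩ := key x
      rw [e]
      exact un_mul hu (un_pow (h1.un x fun h2 => hd x ⟨hx, h2⟩) n)
    · left
      rw [one_mul, e0]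
      exact un_pow (h0.un x hx) n
  · rw [div_one]
    refine trans_of fun a ha => ?_
    -- `D₀ ^ n` is not a unit at `P₀.η`, but `σ⁻¹ D₀ ^ n` is
    obtain ⟨u, hu, e⟩ := key P₀.η
    have h2 : Un (X.O P₀.η) (σ⁻¹ * (D₀ ^ n).eq P₀.η) := by
      rw [e]
      exact un_mul hu (un_pow (h1.un _ fun h2 => hd _ ⟨specializes_rfl, h2⟩) n)
    have ha0 : a ≠ 0 := by
      rintro rfl
      rw [map_zero] at ha
      exact inv_ne_zero hσ ha
    have h3 : Un (X.O P₀.η) (algebraMap k K a) := by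
      refine ⟨by rw [← ha]; exact inv_ne_zero hσ, (X.O P₀.η).algebraMap_mem a, ?_⟩
      rw [← map_inv₀]
      exact (X.O P₀.η).algebraMap_mem a⁻¹
    rw [ha, e0] at h2
    have h4 : Un (X.O P₀.η) (D₀.eq P₀.η ^ n) := by
      have h5 := un_mul (un_inv h3) h2
      rwa [← mul_assoc, inv_mul_cancel₀ h3.1, one_mul] at h5
    exact h0.nun _ specializes_rfl ((un_pow_iff (h0.eff _) hn).1 h4)

/-- the first section can be made `1` -/
theorem pcl_one (hν : NumR ν) {F : Cart X} {s₀ s₁ : K} (hP : Pcl F s₀ s₁) :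
    Pcl (prin X s₀ hP.ne0 * F) 1 (s₁ / s₀) ∧ cR ν (prin X s₀ hP.ne0 * F) = cR ν F := by
  have e : ∀ x, (prin X s₀ hP.ne0 * F).eq x = s₀ * F.eq x := fun x => by rw [mul_eq]; rfl
  have e1 : ∀ x, s₁ / s₀ * (s₀ * F.eq x) = s₁ * F.eq x := fun x => by
    have := hP.ne0
    field_simp
  refine ⟨⟨fun x => ?_, fun x => ?_, fun x => ?_, ?_⟩, ?_⟩
  · have h1 := hP.m0 x
    rw [pow_one] at h1
    rw [pow_one, one_mul, e]
    exact h1
  · have h1 := hP.m1 x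
    rw [pow_one] at h1
    rw [pow_one, e, e1]
    exact h1
  · rw [one_mul, e, e1]
    exact hP.un x
  · rw [div_one]
    exact hP.tr
  · have e2 : ci ν (prin X s₀ hP.ne0) = 0 := by
      unfold ci
      rw [(hν.ker _).2 (numz_prin s₀ hP.ne0)]
      rfl
    change rv (ci ν (prin X s₀ hP.ne0 * F)) = rv (ci ν F)
    rw [ci_mul, e2, zero_add]

/-- **THE PENCIL**, if numerically trivial divisors are torsion -/
theorem pen_t [CharZero k] [IsAlgClosed k] [T0Space X.P] (h : Hyp X) (hr : RR T l₀ c) (hν : NumR ν)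
    (hT : ∀ U V W, TR (cR ν U) (cR ν V) (cR ν W) = T U V W) {l : (Fin r → ℝ) →ₗ[ℝ] ℝ} (hl : ∀ D, l (cR ν D) = l₀ D)
    (hnt : NumT X) {N : Cart X} (hN : cR ν N ∈ closure (AmpR ν)) (hsq : ∀ U, T N N U = 0) (hpos : 0 < l₀ N) :
    ∃ (F : Cart X) (u : K) (m : ℝ), 0 < m ∧ Pcl F 1 u ∧ cR ν N = m • cR ν F := by
  obtain ⟨A, hA⟩ := h.amp
  obtain ⟨D, ⟨P, hP, hS⟩, hc, s, hs, hNs⟩ := Pool.Agent.H20.ZO.z0 h hr hν hT hl hN hsq hpos
  have hne : (P 0).η ≠ (P 1).η := fun h1 => zero_ne_one (hP 0 1 h1)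
  have hDD : ∀ U, T U (D 0) (D 1) = 0 := by
    intro U
    have h1 : cR ν (D 0) = s⁻¹ • cR ν N := by rw [hNs, smul_smul, inv_mul_cancel₀ hs.ne', one_smul]
    have h2 : TR (cR ν U) (cR ν N) (cR ν N) = 0 := by
      rw [hT, hr.tri.s12, hr.tri.s23, hsq]
    rw [← hT, hc 1, h1]
    simp only [map_smul, LinearMap.smul_apply, smul_eq_mul, h2, mul_zero]
  have hz : NumZ (D 1 * (D 0)⁻¹) := by
    rw [← hν.ker]
    have h1 : ci ν (D 1) = ci ν (D 0) := by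
      have h2 : rv (ci ν (D 1)) = rv (ci ν (D 0)) := hc 1
      funext i
      have h3 := congrFun h2 i
      have h4 : ((ci ν (D 1) i : ℤ) : ℝ) = ((ci ν (D 0) i : ℤ) : ℝ) := h3
      exact_mod_cast h4
    rw [map_mul, map_inv]
    have h2 : ν (D 1) = ν (D 0) := h1
    rw [h2, mul_inv_cancel]
  obtain ⟨m, σ, hm, hpcl⟩ := pen_of h hr hA (hS 0) (hS 1) hne hDD (hnt _ hz)
  refine ⟨D 0 ^ m, σ, s / m, by positivity, hpcl, ?_⟩
  have e : cR ν (D 0 ^ m) = (m : ℝ) • cR ν (D 0) := by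
    change rv (ci ν (D 0 ^ m)) = _
    rw [ci_pow, rv_smul]
    rfl
  have hm0 : (m : ℝ) ≠ 0 := by exact_mod_cast hm.ne'
  rw [e, smul_smul, div_mul_cancel₀ _ hm0, hNs]

end Pool.Agent.H39.KN
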