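import Pool.Agent.H39.KN.N5
import Pool.Agent.H39.KN.Pen
import Pool.Agent.H60.ZC.Fin2
import Pool.Agent.H89.RS.Thm
import Pool.Agent.H43.WR.Fin
import Pool.Agent.H39.RT.Fin2

/-!
# [H39 KN Full] THEOREM C (MP_e49dc9_ag): the local structure of the nef cone if `l > 0` on the nonzero nef classes

`rat_iso`: at the isotropic integral classes.  `rat_all`: at all integral nef classes, and `RatIn` at all nef classes.
-/

set_option autoImplicit false

namespace Pool.Agent.H39.KN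

open Pool.Agent.H54.RV Pool.Agent.H83.TU Pool.Agent.H83.TK Pool.Agent.H20.TD Pool.Agent.H20.TP Pool.Agent.H20.RT
open Pool.Agent.H24.VP (RR)
open Pool.Agent.H32.KF (Pcl)
open Pool.Agent.H43.WR (Jac Pu)
open Pool.Agent.H39.TZ (RatAt EffR)
open Pool.Agent.H39.RT (RatIn)

variable {k K : Type} [Field k] [Field K] [Algebra k K] {X : Mod k K} {r : ℕ}
  {ν : Cart X →* Multiplicative (Fin r → ℤ)} {T : Cart X → Cart X → Cart X → ℝ} {l₀ : Cart X → ℝ} {c : ℝ} {TR : Tri3 r}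
  {l : (Fin r → ℝ) →ₗ[ℝ] ℝ} {J : K → K → K → K} {κ A F : Cart X}

/-- (MI) -/
def MI (ν : Cart X →* Multiplicative (Fin r → ℤ)) (T : Cart X → Cart X → Cart X → ℝ) (A F : Cart X) : Prop :=
  ∃ M : ℝ, 0 ≤ M ∧ ∀ U : Cart X, (∃ t0 : ℝ, cR ν U + t0 • cR ν F ∈ closure (CC ν)) → ∀ s : ℤ,
    0 < h0 (U * F ^ s) 1 → cR ν U + ((s : ℝ) + M * T A U F) • cR ν F ∈ closure (CC ν)

/-- growth of the multiples of the elliptic classes -/
def Gro (ν : Cart X →* Multiplicative (Fin r → ℤ)) (TR : Tri3 r) : Prop :=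
  ∀ P : Cart X, cR ν P ∈ closure (CC ν) → TR (cR ν P) (cR ν P) (cR ν P) = 0 → TR (cR ν P) (cR ν P) ≠ 0 →
    ∃ c₀ : ℝ, 0 < c₀ ∧ ∃ n₀ : ℕ, ∀ n : ℕ, n₀ ≤ n → c₀ * (n : ℝ) ^ 2 ≤ h0 (P ^ n) 1

/-- (N1)-(N4) for all pencils -/
def NsA (ν : Cart X →* Multiplicative (Fin r → ℤ)) (T : Cart X → Cart X → Cart X → ℝ) (TR : Tri3 r)
    (l : (Fin r → ℝ) →ₗ[ℝ] ℝ) : Prop :=
  ∀ (A F : Cart X) (u : K), Ample A → Pcl F 1 u → cR ν F ∈ closure (CC ν) → TR (cR ν F) (cR ν F) = 0 →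
    0 < l (cR ν F) → 0 < TR (cR ν F) (cR ν A) (cR ν A) → MI ν T A F → Ns ν TR A F

/-- rationality near `p` depends only on the ray of `p` -/
theorem rat_smul (hX : IsVar X) (hν : NumR ν) {p : Fin r → ℝ} {m : ℝ} (hm : 0 < m) (h : RatAt ν p) :
    RatAt ν (m • p) := by
  obtain ⟨Φ, e, he, hq⟩ := h
  refine ⟨Φ, m * e, by positivity, fun q hq' => ?_⟩
  have h1 : ‖m⁻¹ • q - p‖ < e := by
    have e1 : m⁻¹ • q - p = m⁻¹ • (q - m • p) := by
      rw [smul_sub, smul_smul, inv_mul_cancel₀ hm.ne', one_smul]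
    rw [e1, norm_smul, norm_inv, Real.norm_eq_abs, abs_of_pos hm, inv_mul_lt_iff₀ hm]
    exact hq'
  have h2 := hq _ h1
  have h3 : m⁻¹ • q ∈ closure (AmpR ν) ↔ q ∈ closure (AmpR ν) := by
    rw [cl_eq hX hν]
    constructor
    · intro h4
      have h5 := cl_smul hm.le h4
      rwa [smul_smul, mul_inv_cancel₀ hm.ne', one_smul] at h5
    · intro h4
      exact cl_smul (inv_nonneg.2 hm.le) h4
  rw [← h3, h2]
  refine forall₂_congr fun φ _ => ?_
  rw [dotProduct_smul, smul_eq_mul]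
  constructor
  · intro h4
    have h5 := mul_nonneg hm.le h4
    rwa [← mul_assoc, mul_inv_cancel₀ hm.ne', one_mul] at h5
  · intro h4
    exact mul_nonneg (inv_nonneg.2 hm.le) h4

/-- `T(p,A,A) > 0` for isotropic nef `p` with `l p > 0` -/
theorem iso_pos [CharZero k] [IsAlgClosed k] [T0Space X.P] (h : Hyp X) (hr : RR T l₀ c) (hν : NumR ν)
    (hT : ∀ U V W, TR (cR ν U) (cR ν V) (cR ν W) = T U V W) (hA : Ample A) {p : Fin r → ℝ} (hp : p ∈ closure (CC ν))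
    (hp0 : p ≠ 0) (hpp : TR p p = 0) : 0 < TR p (cR ν A) (cR ν A) := by
  have hAC : cR ν A ∈ closure (CC ν) := subset_closure (cc_amp h.var hν hA)
  rcases (tr_nn h hr hν hT hp hAC hAC).eq_or_lt with h1 | h1
  · have h2 := pq_zero h hr hν hT hA hp hAC h1.symm
    exact (hp0 (Pool.Agent.H83.RT.num_zero h hr hν hT fun x hx => curves_zero h hr hν hT hA
      (fun u => by rw [h2, LinearMap.zero_apply]) (by rw [hpp, LinearMap.zero_apply]) hx)).elim
  · exact h1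

/-- the isotropic integral classes -/
theorem rat_iso [CharZero k] [IsAlgClosed k] [T0Space X.P] (hSm : Pool.Agent.H20.TU.SmP X) (h : Hyp X)
    (hr : RR T l₀ c) (hν : NumR ν) (hT : ∀ U V W, TR (cR ν U) (cR ν V) (cR ν W) = T U V W)
    (hl : ∀ D, l (cR ν D) = l₀ D) (hJ : Jac X J κ) (hκ : NumZ κ) (hnt : NumT X) (hNs : NsA ν T TR l)
    (hrat : ∀ q ∈ closure (CC ν), TR q q ≠ 0 → RatAt ν q) {N : Cart X} (hN : cR ν N ∈ closure (AmpR ν))
    (hpos : 0 < l (cR ν N)) (hsq : TR (cR ν N) (cR ν N) = 0) : RatAt ν (cR ν N) ∧ EffR ν (cR ν N) := by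
  have hsq' : ∀ U, T N N U = 0 := fun U => by rw [← hT, hsq, LinearMap.zero_apply]
  constructor
  · obtain ⟨F, u, m, hm, hP, hc⟩ := pen_t h hr hν hT hl hnt hN hsq' (by rw [← hl]; exact hpos)
    obtain ⟨A, hA⟩ := h.amp
    have hF : cR ν F = m⁻¹ • cR ν N := by rw [hc, smul_smul, inv_mul_cancel₀ hm.ne', one_smul]
    have hNC : cR ν N ∈ closure (CC ν) := by rwa [← cl_eq h.var hν]
    have hFC : cR ν F ∈ closure (CC ν) := by
      rw [hF]
      exact cl_smul (inv_nonneg.2 hm.le) hNC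
    have hFF : TR (cR ν F) (cR ν F) = 0 := by
      rw [hF]
      simp only [map_smul, LinearMap.smul_apply, hsq, smul_zero]
    have hlF : 0 < l (cR ν F) := by
      rw [hF, map_smul, smul_eq_mul]
      exact mul_pos (inv_pos.2 hm) hpos
    have hF0 : cR ν F ≠ 0 := by
      intro h0
      rw [h0, map_zero] at hlF
      exact lt_irrefl _ hlF
    have hFA := iso_pos h hr hν hT hA hFC hF0 hFF
    have hPu : Pu X F u := by
      refine ⟨fun x => ?_, fun x => ?_, fun x => ?_⟩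
      · have h1 := hP.m0 x
        rwa [pow_one, one_mul] at h1
      · have h1 := hP.m1 x
        rwa [pow_one] at h1
      · have h1 := hP.un x
        rwa [one_mul] at h1
    have hFn : ∀ B : Cart X, Ample B → Ample (B * F) := by
      have h1 : rv (ci ν F) ∈ closure (AmpR ν) := by
        rw [cl_eq h.var hν]
        exact hFC
      exact Pool.Agent.H39.TZ.nf_of_cl h.var hν h1
    have hMI : MI ν T A F := Pool.Agent.H43.WR.mi hSm h hr hν hT hJ hκ hPu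
      (fun D => by rw [← hT, hFF, LinearMap.zero_apply]) hFn hA
    have h5 := n5 h hr hν hT hA hFC hFF hFA (hNs A F u hA hP hFC hFF hlF hFA hMI) hrat
    rw [hc]
    exact rat_smul h.var hν hm h5
  · obtain ⟨D, ⟨P, -, hS⟩, -, s, hs, hNs'⟩ := Pool.Agent.H20.ZO.z0 h hr hν hT hl hN hsq' (by rw [← hl]; exact hpos)
    rw [hNs']
    exact ⟨1, fun _ => s, fun _ => D 0, fun _ => ⟨hs.le, (hS 0).eff⟩, by simp⟩

/-- **THEOREM C**: if `l > 0` on the nonzero nef classes, then all nonzero nef classes are interior points of the nef cone of their rational hull, and the nef cone is rational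
polyhedral near the integral nef classes -/
theorem rat_all [CharZero k] [IsAlgClosed k] [T0Space X.P] (hSm : Pool.Agent.H20.TU.SmP X) (h : Hyp X)
    (hr : RR T l₀ c) (hν : NumR ν) (hT : ∀ U V W, TR (cR ν U) (cR ν V) (cR ν W) = T U V W)
    (hl : ∀ D, l (cR ν D) = l₀ D) (hJ : Jac X J κ) (hκ : NumZ κ) (hnt : NumT X) (hNs : NsA ν T TR l)
    (hgro : Gro ν TR) (hpos : ∀ q ∈ closure (AmpR ν), q ≠ 0 → 0 < l q) :
    (∀ q ∈ closure (AmpR ν), q ≠ 0 → RatIn ν q) ∧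
      ∀ D : Cart X, cR ν D ∈ closure (AmpR ν) → cR ν D ≠ 0 → RatAt ν (cR ν D) ∧
        (TR (cR ν D) (cR ν D) = 0 → EffR ν (cR ν D)) := by
  obtain ⟨A, hA⟩ := h.amp
  have hcl : closure (AmpR ν) = closure (CC ν) := cl_eq h.var hν
  have hin : ∀ q ∈ closure (AmpR ν), q ≠ 0 → ∃ e : ℝ, 0 < e ∧ ∀ y ∈ Vp q, ‖y - q‖ < e → y ∈ closure (AmpR ν) := by
    intro q hq hq0
    rcases Pool.Agent.H89.RS.thmRS hSm h hr hν hT hl hq (hpos q hq hq0) with h1 | ⟨s, q', G, hs, hq', hq'0, -, -, -, -, -, hlq⟩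
    · exact h1
    · exact absurd (hpos q' hq' hq'0) (not_lt.2 hlq)
  have f : Pool.Agent.H60.ZC.Fr ν T l₀ c TR l A := ⟨h, hr, hν, hT, hl, hA⟩
  have hrat : ∀ q ∈ closure (CC ν), TR q q ≠ 0 → RatAt ν q := by
    intro q hq hqq
    rcases (tr_nn h hr hν hT hq hq hq).lt_or_eq with h3 | h3
    · exact Pool.Agent.H39.TZ.loc_poly h hr hν hT (by rwa [hcl]) h3
    · refine Pool.Agent.H60.ZC.rat_ell f (fun p hp hp0 => hpos p (by rwa [hcl]) hp0) (fun p hp hp0 => ?_) hgro hq h3.symm hqq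
      rw [← hcl] at hp ⊢
      exact hin p hp hp0
  refine ⟨fun q hq hq0 => ?_, fun D hD hD0 => ?_⟩
  · obtain ⟨e, he, h1⟩ := hin q hq hq0
    exact ⟨e, he, fun y hy hn => h1 y hy hn⟩
  · by_cases hDD : TR (cR ν D) (cR ν D) = 0
    · have h1 := rat_iso hSm h hr hν hT hl hJ hκ hnt hNs hrat hD (hpos _ hD hD0) hDD
      exact ⟨h1.1, fun _ => h1.2⟩
    · exact ⟨hrat _ (by rwa [← hcl]) hDD, fun h1 => absurd h1 hDD⟩

end Pool.Agent.H39.KN
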