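import Pool.Agent.H60.ZC.Fin1
import Pool.Agent.H86.KN.N1

/-!
# [H39 KN N5] K3 fibrations (MP_e49dc9_ag): the nef cone is rational polyhedral near an isotropic class

`F` integral and nef, `F . F = 0`.  Hypotheses: (N1)-(N4) for the classes `D` in the tangent cone of `F` (`Tn ν A F D`), and `RatAt ν q` for the nef classes `q` with `q . q ≠ 0`.
* `tan_dec`: every `D` in the tangent cone of `F` is `x - K F` with `x` nef.
* `n5`: `RatAt ν (cR ν F)`: `cvx` (H32/ZC/Cvx.lean).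
-/

set_option autoImplicit false

namespace Pool.Agent.H39.KN

open Pool.Agent.H54.RV Pool.Agent.H83.TU Pool.Agent.H83.TK Pool.Agent.H20.TD Pool.Agent.H20.TP Pool.Agent.H20.RT
open Pool.Agent.H24.VP (RR)
open Pool.Agent.H24.RC (eps_nn)

variable {k K : Type} [Field k] [Field K] [Algebra k K] {X : Mod k K} {r : ℕ}
  {ν : Cart X →* Multiplicative (Fin r → ℤ)} {T : Cart X → Cart X → Cart X → ℝ} {l : Cart X → ℝ} {c : ℝ} {TR : Tri3 r}
  {A F : Cart X}

/-- the tangent cone of the nef cone at `F` (`A` ample) -/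
def Tn (ν : Cart X →* Multiplicative (Fin r → ℤ)) (A F : Cart X) (D : Fin r → ℝ) : Prop :=
  ∀ e : ℝ, 0 < e → ∃ t : ℝ, D + e • cR ν A + t • cR ν F ∈ closure (CC ν)

/-- the statements (N1)-(N4) -/
structure Ns (ν : Cart X →* Multiplicative (Fin r → ℤ)) (TR : Tri3 r) (A F : Cart X) : Prop where
  n1 : ∀ D, Tn ν A F D → 0 < TR (cR ν F) D (cR ν A) → 0 ≤ TR (cR ν F) D D →
    (0 < TR (cR ν F) D D ∨ 0 ≤ TR D D D) → ∃ t : ℝ, D + t • cR ν F ∈ closure (CC ν)
  n2 : ∀ D, Tn ν A F D → 0 < TR (cR ν F) D (cR ν A) → TR (cR ν F) D D = 0 →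
    (∃ (W : Cart X) (s : ℝ), ∀ v, TR (cR ν F) D v = s * TR (cR ν F) (cR ν W) v) →
      ∃ t : ℝ, D + t • cR ν F ∈ closure (CC ν)
  n3 : ∀ D, Tn ν A F D → 0 < TR (cR ν F) D (cR ν A) → TR (cR ν F) D D = 0 →
    (¬ ∃ (W : Cart X) (s : ℝ), ∀ v, TR (cR ν F) D v = s * TR (cR ν F) (cR ν W) v) → 0 ≤ TR D D D
  n4 : ∀ D, Tn ν A F D → (∀ v, TR (cR ν F) D v = 0) → ∃ a : ℝ, D = a • cR ν F

private theorem cc_cone (hX : IsVar X) (hν : NumR ν) (hA : Ample A) : Pool.Agent.H32.ZC.Cone (closure (CC ν)) where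
  cl := isClosed_closure
  cv := by
    refine Convex.closure ?_
    intro x hx y hy a b ha hb hab
    rcases ha.eq_or_lt with h1 | h1
    · rw [← h1, zero_smul, zero_add]
      rw [← h1, zero_add] at hab
      rw [hab, one_smul]
      exact hy
    rcases hb.eq_or_lt with h2 | h2
    · rw [← h2, zero_smul, add_zero]
      rw [← h2, add_zero] at hab
      rw [hab, one_smul]
      exact hx
    exact cc_add hX hν (cc_smul h1 hx) (cc_smul h2 hy)
  sm := fun a x ha hx => cl_smul ha.le hx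
  int := ⟨cR ν A, interior_mono subset_closure (by rw [cc_open.interior_eq]; exact cc_amp hX hν hA)⟩

private theorem rat_iff (hX : IsVar X) (hν : NumR ν) (x : Fin r → ℝ) :
    Pool.Agent.H39.TZ.RatAt ν x ↔ Pool.Agent.H32.ZC.RatC (closure (CC ν)) x := by
  unfold Pool.Agent.H39.TZ.RatAt Pool.Agent.H32.ZC.RatC
  rw [cl_eq hX hν]

/-- the closure of the tangent cone -/
private theorem tq_tg (hX : IsVar X) (hν : NumR ν) (hA : Ample A) {D : Fin r → ℝ}
    (hD : D ∈ Pool.Agent.H32.ZC.Tq (closure (CC ν)) (cR ν F)) : Tn ν A F D := by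
  intro ε hε
  obtain ⟨ρ, hρ, hball⟩ := Metric.isOpen_iff.1 (cc_open (ν := ν)) _ (cc_amp hX hν hA)
  obtain ⟨D', ⟨t, ht⟩, hd⟩ := Metric.mem_closure_iff.1 hD (ε * ρ) (by positivity)
  refine ⟨t, ?_⟩
  have h1 : cR ν A + ε⁻¹ • (D - D') ∈ CC ν := by
    refine hball ?_
    rw [Metric.mem_ball, dist_eq_norm]
    have e : rv (ci ν A) + ε⁻¹ • (D - D') - rv (ci ν A) = ε⁻¹ • (D - D') := by abel
    rw [e, norm_smul, norm_inv, Real.norm_eq_abs, abs_of_pos hε, inv_mul_lt_iff₀ hε, ← dist_eq_norm]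
    exact hd
  have h2 := (cc_cone hX hν hA).add ht (subset_closure (cc_smul hε h1))
  have e : D' + t • cR ν F + ε • (cR ν A + ε⁻¹ • (D - D')) = D + ε • cR ν A + t • cR ν F := by
    rw [smul_add, smul_smul, mul_inv_cancel₀ hε.ne', one_smul]
    abel
  rwa [e] at h2

/-- every class in the tangent cone of `F` is nef after adding a multiple of `F` -/
theorem tan_dec [CharZero k] [IsAlgClosed k] [T0Space X.P] (h : Hyp X) (hr : RR T l c) (hν : NumR ν)
    (hT : ∀ U V W, TR (cR ν U) (cR ν V) (cR ν W) = T U V W) (hA : Ample A)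
    (hF : cR ν F ∈ closure (CC ν)) (hsq : TR (cR ν F) (cR ν F) = 0) (hpos : 0 < TR (cR ν F) (cR ν A) (cR ν A))
    (hN : Ns ν TR A F) {D : Fin r → ℝ} (hD : Tn ν A F D) : ∃ t : ℝ, D + t • cR ν F ∈ closure (CC ν) := by
  have s12 := tr_s12 hr hν hT
  have s23 := tr_s23 hr hν hT
  have hAC : cR ν A ∈ closure (CC ν) := subset_closure (cc_amp h.var hν hA)
  -- `T(F,D,A) ≥ 0`
  have hda : 0 ≤ TR (cR ν F) D (cR ν A) := by
    refine eps_nn (b := TR (cR ν F) (cR ν A) (cR ν A)) fun e he => ?_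
    obtain ⟨t, ht⟩ := hD e he
    have h1 := tr_nn h hr hν hT hF ht hAC
    simp only [map_add, map_smul, LinearMap.add_apply, LinearMap.smul_apply, smul_eq_mul, hsq, LinearMap.zero_apply,
      mul_zero, add_zero] at h1
    exact h1
  -- `T(F,D,D) ≥ 0`
  have hdd : 0 ≤ TR (cR ν F) D D := by
    by_contra hcon
    push Not at hcon
    have key : ∀ e : ℝ, 0 < e → e ≤ 1 →
        0 ≤ TR (cR ν F) D D + e * (2 * TR (cR ν F) D (cR ν A) + TR (cR ν F) (cR ν A) (cR ν A)) := by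
      intro e he he1
      obtain ⟨t, ht⟩ := hD e he
      have h1 := tr_nn h hr hν hT hF ht ht
      have e1 : TR (cR ν F) (cR ν A) D = TR (cR ν F) D (cR ν A) := s23 _ _ _
      have e2 : ∀ v, TR (cR ν F) v (cR ν F) = 0 := fun v => by rw [s23, hsq, LinearMap.zero_apply]
      simp only [map_add, map_smul, LinearMap.add_apply, LinearMap.smul_apply, smul_eq_mul, hsq, LinearMap.zero_apply,
        mul_zero, add_zero, e1, e2] at h1
      nlinarith [mul_nonneg he.le (sub_nonneg.2 he1), mul_nonneg (mul_nonneg he.le (sub_nonneg.2 he1)) hpos.le]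
    obtain ⟨B, hB⟩ : ∃ B, B = 2 * TR (cR ν F) D (cR ν A) + TR (cR ν F) (cR ν A) (cR ν A) := ⟨_, rfl⟩
    rw [← hB] at key
    have hB0 : 0 < B := by rw [hB]; linarith
    obtain ⟨e, he⟩ : ∃ e, e = min 1 (-(TR (cR ν F) D D) / (2 * B)) := ⟨_, rfl⟩
    have he0 : 0 < e := by
      rw [he]
      exact lt_min one_pos (div_pos (by linarith) (by linarith))
    have h1 := key e he0 (by rw [he]; exact min_le_left _ _)
    have h2 : e ≤ -(TR (cR ν F) D D) / (2 * B) := by rw [he]; exact min_le_right _ _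
    have h3 : e * B ≤ -(TR (cR ν F) D D) / 2 := by
      have h4 := mul_le_mul_of_nonneg_right h2 hB0.le
      have h5 : -(TR (cR ν F) D D) / (2 * B) * B = -(TR (cR ν F) D D) / 2 := by field_simp
      linarith
    linarith
  rcases hda.lt_or_eq with hda | hda
  · rcases hdd.lt_or_eq with hdd | hdd
    · exact hN.n1 D hD hda hdd.le (Or.inl hdd)
    · by_cases hrat : ∃ (W : Cart X) (s : ℝ), ∀ v, TR (cR ν F) D v = s * TR (cR ν F) (cR ν W) v
      · exact hN.n2 D hD hda hdd.symm hrat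
      · exact hN.n1 D hD hda hdd.le (Or.inr (hN.n3 D hD hda hdd.symm hrat))
  · -- the index theorem
    have h1 := hi_real h hr hν hT hF (L := cR ν A) (v := D) hpos
    have h2 : TR (cR ν F) (cR ν A) D = 0 := by rw [s23, ← hda]
    rw [h2] at h1
    have h3 : TR (cR ν F) D D = 0 := by
      rcases hdd.lt_or_eq with h4 | h4
      · have := mul_pos hpos h4
        nlinarith
      · exact h4.symm
    obtain ⟨a, ha⟩ := hN.n4 D hD (hd_eq h hr hν hT hF hpos hda.symm h3)
    refine ⟨-a, ?_⟩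
    have h4 : D + -a • cR ν F = (0 : ℝ) • cR ν F := by
      rw [ha, ← add_smul]
      congr 1
      ring
    rw [h4]
    exact cl_smul le_rfl hF

theorem n5 [CharZero k] [IsAlgClosed k] [T0Space X.P] (h : Hyp X) (hr : RR T l c) (hν : NumR ν)
    (hT : ∀ U V W, TR (cR ν U) (cR ν V) (cR ν W) = T U V W) (hA : Ample A)
    (hF : cR ν F ∈ closure (CC ν)) (hsq : TR (cR ν F) (cR ν F) = 0) (hpos : 0 < TR (cR ν F) (cR ν A) (cR ν A))
    (hN : Ns ν TR A F) (hrat : ∀ q ∈ closure (CC ν), TR q q ≠ 0 → Pool.Agent.H39.TZ.RatAt ν q) :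
    Pool.Agent.H39.TZ.RatAt ν (cR ν F) := by
  have s12 := tr_s12 hr hν hT
  have s23 := tr_s23 hr hν hT
  have hAC : cR ν A ∈ closure (CC ν) := subset_closure (cc_amp h.var hν hA)
  have hC : Pool.Agent.H32.ZC.Cone (closure (CC ν)) := cc_cone h.var hν hA
  rw [rat_iff h.var hν]
  -- the integral functional `T(F,A,.)`
  obtain ⟨φ, hφ⟩ := int_fun hν (F := TR (cR ν F) (cR ν A)) fun D => by
    obtain ⟨n, hn⟩ := Pool.Agent.H24.VP.t_int hr ⟨A, hA⟩ F A D
    exact ⟨n, by rw [hT, hn]⟩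
  refine Pool.Agent.H32.ZC.cvx hC hF (φ₀ := φ) ?_ (fun y hy => ?_) ?_ ?_
  · intro h0
    have h1 := hφ (cR ν A)
    rw [h0] at h1
    have e : rv (0 : Fin r → ℤ) = 0 := by
      funext i
      simp [rv]
    rw [e, zero_dotProduct] at h1
    linarith
  · rw [← hφ]
    exact tr_nn h hr hν hT hF hAC hy
  · rw [← hφ, s23, hsq, LinearMap.zero_apply]
  · intro D hDT hDN
    have hD := tq_tg h.var hν hA hDT
    obtain ⟨t₁, ht₁⟩ := tan_dec h hr hν hT hA hF hsq hpos hN hD
    have hmem : ∀ t, t₁ ≤ t → D + t • cR ν F ∈ closure (CC ν) := by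
      intro t ht
      have h1 := hC.add ht₁ (cl_smul (show 0 ≤ t - t₁ by linarith) hF)
      have e : D + t₁ • cR ν F + (t - t₁) • cR ν F = D + t • cR ν F := by
        rw [sub_smul]
        abel
      rwa [e] at h1
    -- `T(F,D,.)` is not zero
    obtain ⟨v, hv⟩ : ∃ v, TR (cR ν F) D v ≠ 0 := by
      by_contra hno
      push Not at hno
      obtain ⟨a, ha⟩ := hN.n4 D hD hno
      apply hDN
      rw [ha]
      exact (Pool.Agent.H32.ZC.Nq hC hF).smul_mem a (Pool.Agent.H32.ZC.self_Nq hC hF)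
    -- so `(D + t F) . (D + t F)` is zero for at most one `t`
    obtain ⟨t₂, ht₂⟩ : ∃ t₂ : ℝ, ∀ t, t₂ < t → TR (D + t • cR ν F) (D + t • cR ν F) v ≠ 0 := by
      refine ⟨-(TR D D v) / (2 * TR (cR ν F) D v), fun t ht h0 => ?_⟩
      have e1 : TR D (cR ν F) v = TR (cR ν F) D v := s12 _ _ _
      simp only [map_add, map_smul, LinearMap.add_apply, LinearMap.smul_apply, smul_eq_mul, hsq, LinearMap.zero_apply,
        mul_zero, add_zero, e1] at h0
      have h1 : t = -(TR D D v) / (2 * TR (cR ν F) D v) := by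
        rw [eq_div_iff (mul_ne_zero two_ne_zero hv)]
        linarith
      linarith
    refine ⟨max t₁ (t₂ + 1), fun t ht => ?_⟩
    have h1 := hmem t ((le_max_left _ _).trans ht)
    refine ⟨h1, ?_⟩
    rw [← rat_iff h.var hν]
    refine hrat _ h1 fun h0 => ?_
    refine ht₂ t (by linarith [(le_max_right t₁ (t₂ + 1)).trans ht]) ?_
    rw [h0, LinearMap.zero_apply]

end Pool.Agent.H39.KN
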