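import Pool.Agent.H39.KN.Full
import Pool.Agent.H32.KN.N2
import Pool.Agent.H32.KN.N4
import Pool.Agent.H47.KN.N3

/-!
# [H39 KN NsA] THEOREM C (MP_e49dc9_ag): (N1)-(N4)
-/

set_option autoImplicit false

namespace Pool.Agent.H39.KN

open Pool.Agent.H54.RV Pool.Agent.H83.TU Pool.Agent.H83.TK Pool.Agent.H20.TD Pool.Agent.H20.TP Pool.Agent.H20.RT
open Pool.Agent.H24.VP (RR)
open Pool.Agent.H32.KF (Pcl)
open Pool.Agent.H43.WR (Jac Pu)
open Pool.Agent.H24.KN (FD)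

variable {k K : Type} [Field k] [Field K] [Algebra k K] {X : Mod k K} {r : ℕ}
  {ν : Cart X →* Multiplicative (Fin r → ℤ)} {T : Cart X → Cart X → Cart X → ℝ} {l₀ : Cart X → ℝ} {c : ℝ} {TR : Tri3 r}
  {l : (Fin r → ℝ) →ₗ[ℝ] ℝ} {J : K → K → K → K} {κ A F : Cart X}

theorem ns_all [CharZero k] [IsAlgClosed k] [T0Space X.P] (hSm : Pool.Agent.H20.TU.SmP X) (h : Hyp X)
    (hr : RR T l₀ c) (hν : NumR ν) (hT : ∀ U V W, TR (cR ν U) (cR ν V) (cR ν W) = T U V W)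
    (hl : ∀ D, l (cR ν D) = l₀ D) (hJ : Jac X J κ) (hκ : NumZ κ) : NsA ν T TR l := by
  intro A F u hA hP hF hsq hlF hpos hMI
  have hlF' : 0 < l₀ F := by rw [← hl]; exact hlF
  have hPu : Pu X F u := by
    refine ⟨fun x => ?_, fun x => ?_, fun x => ?_⟩
    · have h1 := hP.m0 x
      rwa [pow_one, one_mul] at h1
    · have h1 := hP.m1 x
      rwa [pow_one] at h1
    · have h1 := hP.un x
      rwa [one_mul] at h1
  refine ⟨fun D hD hda hdd hddd => ?_, fun D hD hda hdd hW => ?_, fun D hD hda hdd hW => ?_, fun D hD hQ => ?_⟩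
  · exact Pool.Agent.H86.KN.n1 h hr hν hT hA hP hF hsq hMI hD hda hdd hddd
  · exact Pool.Agent.H32.KN.n2 h hr hν hT hA hF hsq hpos hlF' hMI hD hda hdd hW
  · exact Pool.Agent.H47.KN.n3 hSm h hr hν hT hl hJ hκ hPu ⟨hA, hF, hsq, hpos, hD, hdd, hda⟩ hlF' hW
  · exact Pool.Agent.H32.KN.n4 h hr hν hT hA hP hF hsq hpos hlF' hMI hD (LinearMap.ext fun v => by
      rw [hQ, LinearMap.zero_apply])

end Pool.Agent.H39.KN
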