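import Pool.Agent.H20.AB.Lo
import Pool.Agent.H39.KN.StrB

/-!
# [H39 KN StrC] THEOREM C (MP_e49dc9_ag): the final statement

`c_end`: the local theorem (`loc_l`) and its global consequence.
-/

set_option autoImplicit false

namespace Pool.Agent.H39.KN

open AlgebraicGeometry Pool.Agent.H54.RV Pool.Agent.H83.TU Pool.Agent.H83.TK Pool.Agent.H20.TD
  Pool.Agent.H39.TZ Pool.Agent.H39.TQ Pool.Agent.H20.RT Pool.Agent.H32.TN Pool.Agent.H57.KM Pool.Agent.H39.RT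
open Pool.Agent.H20.AB (Cp cub_zero loc_l in_l)

/-- **THEOREM C** -/
theorem c_end {Y : Scheme.{0}} [IsIntegral Y] (f : Y ⟶ Spec (.of ℂ)) [IsProper f] [Smooth f]
    (hd : Algebra.trdeg ℂ (FF f) = 3) (hA : ∃ D : Cart (mdl f), Ample D) {r : ℕ}
    (ν : Cart (mdl f) →* Multiplicative (Fin r → ℤ)) (hs : Function.Surjective ν) (hνk : ∀ D, ν D = 1 ↔ NumZ D)
    (hH : ∀ A : Cart (mdl f), Ample A → ∃ a b c : ℝ, 0 < b ∧
      ∃ n₀ : ℕ, ∀ n : ℕ, n₀ ≤ n → (h0 A n : ℝ) = a * (n : ℝ) ^ 3 + b * n + c) :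
    ∃ (T : (Fin r → ℝ) → (Fin r → ℝ) → (Fin r → ℝ) → ℝ) (l : (Fin r → ℝ) → ℝ) (c : ℝ), HilbF ν T l c ∧
      (KZero (mdl f) ∧ NumT (mdl f) → ∀ p ∈ closure (AmpR ν), p ≠ 0 →
        (∀ w ∈ closure (AmpR ν), w ≠ 0 → T (p + w) (p + w) (p + w) = 0 → 0 < l w) →
          RatAt ν p ∧ Pool.Agent.H39.TZ.EffR ν p) ∧
      ((∀ p ∈ closure (AmpR ν), p ≠ 0 → T p p p = 0 → 0 < l p) → NefC (mdl f) ⊆ NefP (mdl f) ∧
        NefC (mdl f) ⊆ EffC (mdl f) ∧ (KZero (mdl f) ∧ NumT (mdl f) → RatPolyC (NefC (mdl f)) ∧ Q1Y f)) := by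
  have h := Pool.Agent.H20.TU.hyp_smooth f hd hA
  have hSm := Pool.Agent.H20.TU.smP_mdl f hd
  have := Pool.Agent.H32.TK.t0_mdl f
  have hν : NumR ν := ⟨hs, hνk⟩
  obtain ⟨b₀, l₀, c, T, l, hT₀, hT, hl, hHR⟩ := exists_hilbR h hν hH
  have hr := hT₀.rr
  obtain ⟨b, hb'⟩ := exists_b h.var h.amp hν (nt_of h hr hν hT (nak_r h hr hν hT))
  have hL : KZero (mdl f) ∧ NumT (mdl f) → ∀ p ∈ closure (AmpR ν), p ≠ 0 → Cp ν T l p →
      RatAt ν p ∧ Pool.Agent.H39.TZ.EffR ν p := by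
    rintro ⟨⟨J, κ, hJ, hκ⟩, hnt⟩ p hp hp0 hC
    exact loc_l hSm h hr hν hT hHR.int hl hJ hκ hnt hp hp0 hC
  refine ⟨pl T, l, c, hilbF_of hHR, fun hQ p hp hp0 hC => hL hQ p hp hp0 hC, fun hpos => ?_⟩
  have hC : ∀ p ∈ closure (AmpR ν), Cp ν T l p := fun p hp w hw hw0 h0 =>
    hpos w hw hw0 (cub_zero h hr hν hT hp hw h0).2.2.2
  have hin : ∀ p ∈ closure (AmpR ν), p ≠ 0 → RatIn ν p := by
    intro p hp hp0
    obtain ⟨e, he, h1⟩ := in_l hSm h hr hν hT hl hp hp0 (hC p hp)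
    exact ⟨e, he, h1⟩
  have hNE : NefC (mdl f) ⊆ EffC (mdl f) := nefc_effc h.var hb' fun p hp => by
    by_cases h0 : p = 0
    · rw [h0]
      exact effr_zero
    rcases (cube_nn h hr hT hp).lt_or_eq with h3 | h3
    · exact effr_of_big h hr hν hT hp h3
    · exact eff_in h hr hν hT hHR.int hl (hpos p hp h0 h3.symm) (hin p hp h0)
  refine ⟨?_, hNE, fun hQ => ?_⟩
  · have := fd_of_basis h.var b
    intro x hx
    obtain ⟨v, rfl⟩ := (pt_bij h.var b).2 x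
    rw [← pt_nef h.var hb'] at hx
    by_cases h0 : v = 0
    · rw [h0, Pool.Agent.H83.DC.pt_zero]
      exact np_zero h.var h.amp
    · exact ratin_np h.var h.amp hν hb' (hin v hx h0)
  · obtain ⟨F, hF'⟩ := poly_loc h hr hν fun p hp h0 => (hL hQ p hp h0 (hC p hp)).1
    obtain ⟨h1, -, h2⟩ := Pool.Agent.H39.TP.q1_poly f h.amp b F (by
      rw [pt_amp h.var hb']
      exact hF') fun D hD => hNE hD
    exact ⟨h1, h2⟩

end Pool.Agent.H39.KN
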